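import Mathlib
import Pool.Agent.H63Z.QODE.Defs
import Pool.Agent.H63Z.QODE.Comp

namespace Pool.Agent.Results.MP_554556_an.Definite

open Pool.Agent.H63Z.QODE

/-- If the quaternion system `A l x^(l) + ... + A 0 x = 0` (hermitian even, skewhermitian odd
coefficients, `A l` invertible) is stably bounded and its companion matrix `C` is invertible, then
every root subspace of `C` is `G C`-positive or `G C`-negative. -/
theorem result (n l : ℕ) (_hn : 1 ≤ n) (hl : 1 ≤ l) (A : ℕ → QMat (Fin n))
    (hA : Admissible l A) (hu : IsUnit (A l)) (hs : StablyBounded l A)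
    (hC : IsUnit (companion l A)) (lam : Quaternion ℝ)
    (hlam : IsEigenvalue (companion l A) lam) :
    PositiveOn (gmat l A * companion l A) (rootSubspace (companion l A) lam) ∨
    NegativeOn (gmat l A * companion l A) (rootSubspace (companion l A) lam) :=
  main hl hA hu hs hC lam hlam

end Pool.Agent.Results.MP_554556_an.Definite
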